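import Mathlib

set_option autoImplicit false

namespace Pool.Agent.Results.MP_c23b5e_al.Neg

open MulAction Subgroup Quaternion

/-- `{N} ∪ 𝒜` is a nontrivial Frobenius partition all of whose members in `𝒜` are nontrivial. -/
structure Frob {Γ : Type} [Group Γ] (N : Subgroup Γ) (𝒜 : Set (Subgroup Γ)) : Prop where
  part : ∀ g : Γ, g ≠ 1 → ∃! P, P ∈ insert N 𝒜 ∧ g ∈ P
  normal : N.Normal
  ne_bot : ∀ A ∈ 𝒜, A ≠ ⊥
  malnormal : ∀ A ∈ 𝒜, ∀ γ ∉ A, ∀ g ∈ A, γ * g * γ⁻¹ ∈ A → g = 1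
  conj : ∀ A ∈ 𝒜, ∀ γ : Γ, ∃ B ∈ 𝒜, ∀ g, g ∈ B ↔ γ * g * γ⁻¹ ∈ A
  nontriv : ∃ P ∈ insert N 𝒜, ∃ Q ∈ insert N 𝒜, P ≠ Q ∧ P ≠ ⊥ ∧ Q ≠ ⊥

lemma nt {Γ : Type} [Group Γ] {N A : Subgroup Γ} {𝒜 : Set (Subgroup Γ)} (hA : A ∈ 𝒜) {g n : Γ}
    (hg : g ∈ A) (hg' : g ∉ N) (hn : n ∈ N) (hn' : n ≠ 1) :
    ∃ P ∈ insert N 𝒜, ∃ Q ∈ insert N 𝒜, P ≠ Q ∧ P ≠ ⊥ ∧ Q ≠ ⊥ :=
  ⟨N, .inl rfl, A, .inr hA, fun h => hg' (h ▸ hg), fun h => hn' (by simpa [h] using hn),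
    fun h => hg' (by rw [h, mem_bot] at hg; exact hg ▸ one_mem N)⟩

section
variable {D : Type} [DivisionRing D] (L : Subgroup Dˣ) (T : AddSubgroup D)
  (hT : ∀ a ∈ L, ∀ b ∈ T, a * b ∈ T)

def Aff : Subgroup (Equiv.Perm D) where
  carrier := {σ | ∃ a ∈ L, ∃ b ∈ T, ∀ x, σ x = a * x + b}
  mul_mem' := by
    rintro σ τ ⟨a, ha, b, hb, h⟩ ⟨c, hc, d, hd, h'⟩
    exact ⟨a * c, L.mul_mem ha hc, a * d + b, T.add_mem (hT a ha d hd) hb, fun x => by
      simp [h, h', mul_add, mul_assoc, add_assoc]⟩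
  one_mem' := ⟨1, L.one_mem, 0, T.zero_mem, by simp⟩
  inv_mem' := by
    rintro σ ⟨a, ha, b, hb, h⟩
    exact ⟨a⁻¹, L.inv_mem ha, -(↑a⁻¹ * b), T.neg_mem (hT _ (L.inv_mem ha) b hb), fun x =>
      σ.symm_apply_eq.2 (by simp [h, mul_add])⟩

variable {L T hT}

def mk (a : Dˣ) (ha : a ∈ L) (b : D) (hb : b ∈ T) : Aff L T hT :=
  ⟨a.mulLeft.trans (Equiv.addRight b), a, ha, b, hb, fun _ => rfl⟩

lemma sp (g : Aff L T hT) : ∃ a ∈ L, g.1 1 - g.1 0 = a ∧ g.1 0 ∈ T ∧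
    ∀ x, g.1 x = (g.1 1 - g.1 0) * x + g.1 0 := by
  obtain ⟨a, ha, b, hb, h⟩ := g.2
  exact ⟨a, ha, by simp [h], by simpa [h], by simp [h]⟩

def lin : Aff L T hT →* D where
  toFun g := g.1 1 - g.1 0
  map_one' := by simp
  map_mul' g h := by
    obtain ⟨-, -, -, -, e⟩ := sp g
    change g.1 (h.1 1) - g.1 (h.1 0) = _
    rw [e (h.1 1), e (h.1 0)]
    noncomm_ring

lemma ap (g : Aff L T hT) (x : D) : g • x = lin g * x + g • (0 : D) := (sp g).choose_spec.2.2.2 x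

lemma ex {g h : Aff L T hT} (e : lin g = lin h) {v : D} (e' : g • v = h • v) : g = h := by
  rw [ap g, ap h, e, add_right_inj] at e'
  exact Subtype.ext (Equiv.ext fun x => (ap g x).trans (by rw [e, e']; exact (ap h x).symm))

lemma fr {g : Aff L T hT} (hg : g ∈ lin.ker) {v : D} (h : g • v = v) : g = 1 :=
  ex (hg.trans (map_one _).symm) (h.trans (one_smul _ v).symm)

lemma fx {g : Aff L T hT} (hg : g ∉ lin.ker) : ∃! v : D, g • v = v := by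
  have : 1 - lin g ≠ 0 := sub_ne_zero.2 (Ne.symm hg)
  have k : ∀ v : D, g • v = v ↔ v = (1 - lin g)⁻¹ * g • (0 : D) := fun v => by
    rw [ap g v, eq_inv_mul_iff_mul_eq₀ this, sub_mul, one_mul, sub_eq_iff_eq_add', eq_comm]
  exact ⟨_, (k _).2 rfl, fun v => (k v).1⟩

@[simp] lemma mk_smul (a ha b hb) (x : D) : (mk a ha b hb : Aff L T hT) • x = a * x + b := rfl
@[simp] lemma lin_mk (a ha b hb) : lin (mk a ha b hb : Aff L T hT) = a := by
  change (a * 1 + b) - (a * 0 + b) = _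
  simp

lemma tr (h1 : (1 : D) ∈ T) : (mk 1 L.one_mem 1 h1 : Aff L T hT) ≠ 1 := fun h => by
  simpa using congrArg (· • (0 : D)) h

lemma inf [CharZero D] (h1 : (1 : D) ∈ T) : Infinite (Aff L T hT) :=
  .of_injective (fun n : ℕ => mk 1 L.one_mem n (by simpa using T.nsmul_mem h1 n)) fun m n h => by
    simpa using congrArg (· • (0 : D)) h

def St : Set (Subgroup (Aff L T hT)) := {A | A ≠ ⊥ ∧ ∃ v : D, A = stabilizer _ v}

lemma St_mem {g : Aff L T hT} (hg : g ∉ lin.ker) {v : D} (h : g • v = v) : stabilizer _ v ∈ St (hT := hT) :=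
  ⟨fun e => hg (by have : g ∈ stabilizer _ v := h; rw [e, mem_bot] at this; simp [this]), v, rfl⟩

lemma frob1 (h1 : (1 : D) ∈ T) {a : Dˣ} (ha : a ∈ L) (ha' : (a : D) ≠ 1) :
    Frob (lin (hT := hT)).ker St where
  part g hg := by
    by_cases h : g ∈ lin.ker
    · refine ⟨_, ⟨.inl rfl, h⟩, ?_⟩
      rintro P ⟨rfl | ⟨-, v, rfl⟩, hP⟩
      · rfl
      · exact (hg (fr h hP)).elim
    · obtain ⟨v, hv, u⟩ := fx h
      refine ⟨_, ⟨.inr (St_mem h hv), hv⟩, ?_⟩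
      rintro P ⟨rfl | ⟨-, w, rfl⟩, hP⟩
      · exact (h hP).elim
      · rw [u w hP]
  normal := inferInstance
  ne_bot _ h := h.1
  malnormal := by
    rintro _ ⟨-, v, rfl⟩ γ hγ g hg h
    by_contra h1
    refine hγ (inv_mem_iff.1 ((fx fun h => h1 (fr h hg)).unique ?_ hg))
    rw [eq_inv_smul_iff, ← mul_smul, ← mul_smul]
    exact h
  conj := by
    rintro _ ⟨h, v, rfl⟩ γ
    have k : ∀ g, g ∈ stabilizer _ (γ⁻¹ • v) ↔ γ * g * γ⁻¹ ∈ stabilizer _ v := fun g => by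
      simp [mul_smul, eq_inv_smul_iff]
    refine ⟨_, ⟨fun e => h (eq_bot_iff.2 fun g hg => ?_), _, rfl⟩, k⟩
    have := (k (γ⁻¹ * g * γ)).2 (by simpa [mul_assoc])
    rw [e, mem_bot, mul_assoc, inv_mul_eq_one] at this
    simpa using this
  nontriv := nt (g := mk a ha 0 T.zero_mem) (St_mem (g := mk a ha 0 T.zero_mem) (v := 0)
    (by simpa using ha') (by simp)) (by simp) (by simpa using ha') (by simp) (tr h1)

def Ce : Set (Subgroup (Aff L T hT)) := {A | ∃ g ∉ lin.ker, A = centralizer {g}}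

variable (hL : ∀ a ∈ L, ∀ c ∈ L, ∀ e ∈ L, (a : D) ≠ 1 → (c : D) ≠ 1 → (c : D) * a = a * c →
  (e * c * (e : D)⁻¹) * a = a * (e * c * (e : D)⁻¹) → (e : D) * a = a * e)

lemma f0 {g h : Aff L T hT} (hg : g ∉ lin.ker) (c : h * g = g * h) {v : D} (hv : g • v = v) :
    h • v = v := (fx hg).unique (by rw [← mul_smul, ← c, mul_smul, hv]) hv

lemma f1 {g h : Aff L T hT} (hg : g ∉ lin.ker) (c : h * g = g * h) (h1 : h ≠ 1) : h ∉ lin.ker :=
  fun hh => h1 (fr hh (f0 hg c (fx hg).exists.choose_spec))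

include hL

lemma f2 {g h γ : Aff L T hT} (hg : g ∉ lin.ker) (c : h * g = g * h) (h1 : h ≠ 1)
    (c' : γ * h * γ⁻¹ * g = g * (γ * h * γ⁻¹)) : γ * g = g * γ := by
  obtain ⟨v, hv, -⟩ := fx hg
  have hh := f1 hg c h1
  have e : γ • v = v := by
    refine inv_smul_eq_iff.1 ((fx hh).unique ?_ (f0 hg c hv)) |>.symm
    rw [eq_inv_smul_iff, ← mul_smul, ← mul_smul]
    exact f0 hg c' hv
  refine ex ?_ (v := v) (by simp only [mul_smul, e, hv])
  obtain ⟨a, ha, a1, -⟩ := sp g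
  obtain ⟨b, hb, b1, -⟩ := sp h
  obtain ⟨d, hd, d1, -⟩ := sp γ
  change lin _ = _ at a1 b1 d1
  simp only [map_mul, a1, d1]
  refine hL a ha b hb d hd (a1 ▸ hg) (b1 ▸ hh) ?_ ?_
  · simpa [a1, b1] using congrArg lin c
  · simpa [a1, b1, d1] using congrArg lin c'

lemma f3 {g h : Aff L T hT} (hg : g ∉ lin.ker) (c : h ∈ centralizer {g}) (h1 : h ≠ 1) :
    centralizer {g} = centralizer ({h} : Set _) := by
  rw [mem_centralizer_singleton_iff] at c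
  ext γ
  simp only [mem_centralizer_singleton_iff]
  exact ⟨fun e => f2 hL (f1 hg c h1) c.symm (fun e => hg (by simp [e])) (by simp [e, c]),
    fun e => f2 hL hg c h1 (by simp [e, c])⟩

lemma frob2 (h1 : (1 : D) ∈ T) {a : Dˣ} (ha : a ∈ L) (ha' : (a : D) ≠ 1) :
    Frob (lin (hT := hT)).ker Ce where
  part g hg := by
    by_cases h : g ∈ lin.ker
    · refine ⟨_, ⟨.inl rfl, h⟩, ?_⟩
      rintro P ⟨rfl | ⟨v, hv, rfl⟩, hP⟩
      · rfl
      · exact (f1 hv (mem_centralizer_singleton_iff.1 hP) hg h).elim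
    · refine ⟨_, ⟨.inr ⟨g, h, rfl⟩, mem_centralizer_singleton_iff.2 rfl⟩, ?_⟩
      rintro P ⟨rfl | ⟨v, hv, rfl⟩, hP⟩
      · exact (h hP).elim
      · exact f3 hL hv hP hg
  normal := inferInstance
  ne_bot := by
    rintro _ ⟨g, hg, rfl⟩ e
    have : g ∈ centralizer {g} := mem_centralizer_singleton_iff.2 rfl
    rw [e, mem_bot] at this
    exact hg (by simp [this])
  malnormal := by
    rintro _ ⟨v, hv, rfl⟩ γ hγ g hg h
    by_contra h1
    rw [mem_centralizer_singleton_iff] at hγ hg h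
    exact hγ (f2 hL hv hg h1 h)
  conj := by
    rintro _ ⟨v, hv, rfl⟩ γ
    refine ⟨_, ⟨γ⁻¹ * v * γ, fun h => hv ?_, rfl⟩, fun g => ?_⟩
    · have := (MonoidHom.normal_ker _).conj_mem (γ⁻¹ * v * γ) h γ
      rwa [show γ * (γ⁻¹ * v * γ) * γ⁻¹ = v by group] at this
    simp only [mem_centralizer_singleton_iff]
    constructor <;> intro h
    · calc _ = γ * (g * (γ⁻¹ * v * γ)) * γ⁻¹ := by group
        _ = _ := by rw [h]; group
    · calc _ = γ⁻¹ * (γ * g * γ⁻¹ * v) * γ := by group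
        _ = _ := by rw [h]; group
  nontriv := nt (g := mk a ha 0 T.zero_mem) ⟨mk a ha 0 T.zero_mem, by simpa using ha', rfl⟩
    (mem_centralizer_singleton_iff.2 rfl) (by simpa using ha') (by simp) (tr h1)

end

def R : Subring ℚ where
  carrier := {x | ∃ m n : ℤ, ¬3 ∣ m ∧ m * x = n}
  mul_mem' := by
    rintro x y ⟨m, n, h, e⟩ ⟨m', n', h', e'⟩
    exact ⟨m * m', n * n', fun k => (Int.prime_three.dvd_or_dvd k).elim h h', by
      push_cast; rw [← e, ← e']; ring⟩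
  add_mem' := by
    rintro x y ⟨m, n, h, e⟩ ⟨m', n', h', e'⟩
    exact ⟨m * m', n * m' + n' * m, fun k => (Int.prime_three.dvd_or_dvd k).elim h h', by
      push_cast; rw [← e, ← e']; ring⟩
  one_mem' := ⟨1, 1, by decide, by simp⟩
  zero_mem' := ⟨1, 0, by decide, by simp⟩
  neg_mem' := by
    rintro x ⟨m, n, h, e⟩
    exact ⟨m, -n, h, by push_cast; rw [← e]; ring⟩

lemma nR {x : ℚ} (h : x ∈ R) : 3 * x ≠ -1 ∧ 3 * x ≠ -2 ∧ 3 * x ≠ 2 := by
  obtain ⟨m, n, h, e⟩ := h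
  refine ⟨fun k => h ?_, fun k => h ?_, fun k => h ?_⟩
  · have : (-m : ℚ) = 3 * n := by rw [← e]; linear_combination -m * k
    norm_cast at this; omega
  · have : (-2 * m : ℚ) = 3 * n := by rw [← e]; linear_combination -m * k
    norm_cast at this; omega
  · have : (2 * m : ℚ) = 3 * n := by rw [← e]; linear_combination -m * k
    norm_cast at this; omega

def Co (p : ℍ[ℚ]) : Prop := p.re ∈ R ∧ p.imI ∈ R ∧ p.imJ ∈ R ∧ p.imK ∈ R

/-- Norm one rational quaternions congruent to `1` modulo `3`. -/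
def LQ : Subgroup ℍ[ℚ]ˣ where
  carrier := {q | normSq q.1 = 1 ∧ ∃ p, Co p ∧ q.1 = 1 + (3 : ℚ) • p}
  mul_mem' := by
    rintro q r ⟨h, p, ⟨a, b, c, d⟩, e⟩ ⟨h', p', ⟨a', b', c', d'⟩, e'⟩
    have t : (3 : ℚ) ∈ R := ofNat_mem R 3
    refine ⟨by simp [h, h'], p + p' + (3 : ℚ) • (p * p'), ?_, ?_⟩
    · simp only [Co, re_add, imI_add, imJ_add, imK_add, re_smul, imI_smul, imJ_smul, imK_smul,
        re_mul, imI_mul, imJ_mul, imK_mul, smul_eq_mul]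
      refine ⟨?_, ?_, ?_, ?_⟩ <;> apply_rules (maxDepth := 99) only [add_mem, sub_mem, mul_mem, *]
    · simp only [Units.val_mul, e, e', mul_add, add_mul, smul_add, smul_mul_assoc, mul_smul_comm,
        mul_one, one_mul]
      abel
  one_mem' := ⟨by simp, 0, by simp [Co], by simp⟩
  inv_mem' := by
    rintro q ⟨h, p, ⟨a, b, c, d⟩, e⟩
    refine ⟨by simp [h], star p, by simp [Co, *], ?_⟩
    rw [Units.val_inv_eq_inv_val, inv_def, h, e]
    simp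

lemma par {u v : ℍ[ℚ]} (hu : u.im ≠ 0) (h : v * u = u * v) : ∃ s t : ℚ, v = s • 1 + t • u := by
  have n : normSq u.im ≠ 0 := normSq_ne_zero.2 hu
  have h1 := congrArg (·.imI) h
  have h2 := congrArg (·.imJ) h
  have h3 := congrArg (·.imK) h
  simp [normSq_def'] at n h1 h2 h3
  set t := (u.imI * v.imI + u.imJ * v.imJ + u.imK * v.imK) / (u.imI ^ 2 + u.imJ ^ 2 + u.imK ^ 2)
    with ht
  refine ⟨v.re - t * u.re, t, ?_⟩
  ext <;> simp [ht] <;> field_simp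
  · linear_combination (u.imJ / 2) * h3 - (u.imK / 2) * h2
  · linear_combination (u.imK / 2) * h1 - (u.imI / 2) * h3
  · linear_combination (u.imI / 2) * h2 - (u.imJ / 2) * h1

lemma LQ_im {a : ℍ[ℚ]ˣ} (ha : a ∈ LQ) : a.1.re ≠ 0 ∧ (a.1 ≠ 1 → a.1.im ≠ 0) := by
  obtain ⟨h, p, ⟨k, -⟩, e⟩ := ha
  have e1 : a.1.re = 1 + 3 * p.re := by simp [e]
  refine ⟨fun z => (nR k).1 (by linarith), fun h1 z => h1 ?_⟩
  rw [← re_add_im a.1, z, add_zero] at h ⊢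
  rw [normSq_coe, sq_eq_one_iff] at h
  rcases h with h | h
  · simp [h]
  · exact ((nR k).2.1 (by linarith)).elim

lemma hLQ : ∀ a ∈ LQ, ∀ c ∈ LQ, ∀ e ∈ LQ, a.1 ≠ 1 → c.1 ≠ 1 → c.1 * a = a * c →
  (e * c * e.1⁻¹) * a = a * (e * c * e.1⁻¹) → e.1 * a = a * e := by
  intro a ha c hc e he a1 c1 h h'
  have e0 := (LQ_im he).1
  have a0 := (LQ_im ha).2 a1
  obtain ⟨s, t, k⟩ := par ((LQ_im hc).2 c1) h.symm
  obtain ⟨s', t', k'⟩ := par a0 h'
  have q : e.1 * a = ((s + t * s') • 1 + (t * t') • a.1) * e := by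
    rw [mul_inv_eq_iff_eq_mul₀ e.ne_zero] at k'
    rw [congrArg (e.1 * ·) k, mul_add, mul_smul_comm, mul_smul_comm, k']
    simp only [add_mul, smul_add, add_smul, mul_smul, smul_mul_assoc, add_assoc, mul_one, one_mul]
  generalize s + t * s' = σ, t * t' = τ at q
  have n := he.1
  have h0 := congrArg (·.re) q
  have h1 := congrArg (·.imI) q
  have h2 := congrArg (·.imJ) q
  have h3 := congrArg (·.imK) q
  have m : normSq a.1.im ≠ 0 := normSq_ne_zero.2 a0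
  simp [normSq_def'] at n h0 h1 h2 h3 m
  have r : σ + τ * a.1.re - a.1.re = 0 := by
    linear_combination -(σ + τ * a.1.re - a.1.re) * n - e.1.re * h0 - e.1.imI * h1 - e.1.imJ * h2
      - e.1.imK * h3
  obtain rfl : τ = 1 := by
    refine mul_left_cancel₀ (mul_ne_zero e0 m) ?_
    linear_combination -a.1.imI * h1 - a.1.imJ * h2 - a.1.imK * h3 -
      (a.1.imI * e.1.imI + a.1.imJ * e.1.imJ + a.1.imK * e.1.imK) * r
  obtain rfl : σ = 0 := by linarith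
  simpa using q

def qa : ℍ[ℚ]ˣ := .mk0 ⟨-4 / 5, 3 / 5, 0, 0⟩ (fun h => by simpa using congrArg (·.re) h)
def qb : ℍ[ℚ]ˣ := .mk0 ⟨-4 / 5, 0, 3 / 5, 0⟩ (fun h => by simpa using congrArg (·.re) h)

lemma r1 : (1 / 5 : ℚ) ∈ R ∧ (-3 / 5 : ℚ) ∈ R := ⟨⟨5, 1, by decide, by norm_num⟩, 5, -3, by decide,
  by norm_num⟩

lemma ma : qa ∈ LQ := ⟨by norm_num [qa, normSq_def'], ⟨-3 / 5, 1 / 5, 0, 0⟩,
  ⟨r1.2, r1.1, zero_mem _, zero_mem _⟩, by ext <;> norm_num [qa]⟩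
lemma mb : qb ∈ LQ := ⟨by norm_num [qb, normSq_def'], ⟨-3 / 5, 0, 1 / 5, 0⟩,
  ⟨r1.2, zero_mem _, r1.1, zero_mem _⟩, by ext <;> norm_num [qb]⟩
lemma a1 : qa.1 ≠ 1 := fun h => by have := congrArg (·.re) h; norm_num [qa] at this
lemma ab : qa.1 * qb ≠ qb * qa := fun h => by have := congrArg (·.imK) h; norm_num [qa, qb] at this

abbrev G1 := Aff LQ ⊤ fun _ _ _ _ => trivial

def LR : Subgroup ℚˣ where
  carrier := {a | a.1 ∈ R ∧ a⁻¹.1 ∈ R}
  mul_mem' h h' := ⟨R.mul_mem h.1 h'.1, by rw [mul_inv]; exact R.mul_mem h.2 h'.2⟩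
  one_mem' := ⟨R.one_mem, R.one_mem⟩
  inv_mem' h := ⟨h.2, h.1⟩

abbrev G2 := Aff LR R.toAddSubgroup fun _ h _ h' => R.mul_mem h.1 h'

theorem result :
    (∃ (Γ : Type) (_ : Group Γ) (N N' : Subgroup Γ) (𝒜 𝒜' : Set (Subgroup Γ)), Infinite Γ ∧
      Frob N 𝒜 ∧ Frob N' 𝒜' ∧ 𝒜 ≠ 𝒜') ∧
    (∃ (Γ : Type) (_ : Group Γ) (N : Subgroup Γ) (𝒜 : Set (Subgroup Γ)), Infinite Γ ∧
      Frob N 𝒜 ∧ ∃ A ∈ 𝒜, ∃ B ∈ 𝒜, IsEmpty (A ≃* B)) ∧
    (∃ (Γ : Type) (_ : Group Γ) (N : Subgroup Γ) (𝒜 : Set (Subgroup Γ)), Infinite Γ ∧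
      Frob N 𝒜 ∧ N ≠ ⊥ ∧ ∀ A ∈ 𝒜, ¬∀ g : Γ, ∃ n ∈ N, ∃ a ∈ A, g = n * a) := by
  have : CharZero ℍ[ℚ] := algebraRat.charZero _
  have key : ∀ A ∈ Ce, ∀ x ∈ A, ∀ y ∈ A, lin (x : G1) = qa → lin y = qb → False := by
    rintro _ ⟨g, hg, rfl⟩ x hx y hy ex ey
    rw [f3 hLQ hg hx fun h => a1 (by simp [← ex, h]), mem_centralizer_singleton_iff] at hy
    exact ab (by simpa [ex, ey] using (congrArg lin hy).symm)
  refine ⟨⟨G1, inferInstance, _, _, _, _, inf trivial, frob1 trivial ma a1,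
    frob2 hLQ trivial ma a1, fun h => ?_⟩, ?_, G1, inferInstance, _, _, inf trivial,
    frob2 hLQ trivial ma a1, fun h => tr (hT := fun _ _ _ _ => trivial) (L := LQ) (T := ⊤) trivial
      (by rw [← mem_bot, ← h]; simp), fun A hA h => ?_⟩
  · exact key _ (h ▸ St_mem (T := ⊤) (g := mk qa ma 0 trivial) (v := 0) (by simpa using a1) (by simp))
      (mk qa ma 0 trivial) (by simp) (mk qb mb 0 trivial) (by simp) (by simp) (by simp)
  · have m1 : -1 ∈ LR := ⟨R.neg_mem R.one_mem, R.neg_mem R.one_mem⟩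
    have m4 : Units.mk0 4 four_ne_zero ∈ LR := ⟨ofNat_mem R 4, 4, 1, by decide, by norm_num⟩
    let g : G2 := mk _ m1 0 R.zero_mem
    have g1 : g ∉ lin.ker := by norm_num [g]
    refine ⟨G2, inferInstance, _, _, inf R.one_mem, frob1 R.one_mem m1 (by norm_num),
      _, St_mem g1 (v := 0) (by simp [g]), _, St_mem (g := mk _ m4 (-1) (R.neg_mem R.one_mem))
        (v := 1 / 3) (by norm_num) (by norm_num), ⟨fun φ => ?_⟩⟩
    obtain ⟨⟨x, hx⟩, e⟩ : ∃ x, x = φ ⟨g, show g • _ = _ by simp [g]⟩ := ⟨_, rfl⟩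
    have x2 : x * x = 1 := by
      have : (⟨x, hx⟩ * ⟨x, hx⟩ : stabilizer G2 (1 / 3 : ℚ)) = 1 := by
        rw [e, ← map_mul, φ.map_eq_one_iff]
        exact Subtype.ext (ex (v := 0) (by simp [g]) (by simp [g, mul_smul]))
      exact congrArg Subtype.val this
    rcases mul_self_eq_one_iff.1 ((map_mul lin x x).symm.trans (by rw [x2, map_one])) with h | h
    · obtain rfl := fr h hx
      exact g1 (by rw [show g = 1 from congrArg Subtype.val (φ.map_eq_one_iff.1 e.symm)]; simp)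
    · have := (ap x _).symm.trans hx
      rw [h] at this
      exact (nR (sp x).choose_spec.2.2.1).2.2 (by change 3 * x • (0 : ℚ) = 2; linarith)
  · obtain ⟨n, hn, x, hx, e⟩ := h (mk qa ma 0 trivial)
    obtain ⟨n', hn', y, hy, e'⟩ := h (mk qb mb 0 trivial)
    refine key A hA x hx y hy ?_ ?_
    · simpa [MonoidHom.mem_ker.1 hn] using (congrArg lin e).symm
    · simpa [MonoidHom.mem_ker.1 hn'] using (congrArg lin e').symm

end Pool.Agent.Results.MP_c23b5e_al.Neg
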